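import Pool.Agent.H.MP_2c2cb6_an.Emb3

set_option autoImplicit false

namespace Pool.Agent.Results.MP_2c2cb6_an.HeisenbergEmbeds

open Topology

/-! ## Definitions used in the statement -/

/-- The translation action of `ℤ^d` on configurations: `(σ^u x)(v) = x(u + v)`. -/
def shift {d : ℕ} {A : Type} (u : Fin d → ℤ) (x : (Fin d → ℤ) → A) : (Fin d → ℤ) → A :=
  fun v => x (u + v)

/-- `X` is a shift (subshift) of dimension `d` over the alphabet `A`: a nonempty closed subset of
`A^(ℤ^d)` (product topology) with `σ^u X = X` for all `u ∈ ℤ^d`. -/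
structure IsSubshift {d : ℕ} {A : Type} [TopologicalSpace A] (X : Set ((Fin d → ℤ) → A)) :
    Prop where
  nonempty : X.Nonempty
  isClosed : IsClosed X
  image_shift : ∀ u : Fin d → ℤ, shift u '' X = X

/-- The homeomorphism `φ : X → X` commutes with the shift action, `φ ∘ σ^u = σ^u ∘ φ` for all
`u ∈ ℤ^d`: whenever `x ∈ X` and `y = σ^u x ∈ X`, then `φ y = σ^u (φ x)`. The homeomorphisms with
this property form the automorphism group `Aut(X)` of the shift `X`. -/
def IsAutomorphism {d : ℕ} {A : Type} [TopologicalSpace A] {X : Set ((Fin d → ℤ) → A)}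
    (φ : X ≃ₜ X) : Prop :=
  ∀ (u : Fin d → ℤ) (x y : X), y.1 = shift u x.1 → (φ y).1 = shift u (φ x).1

/-- The group `G` embeds into `Aut(X)`: there is an injective homomorphism from `G` to the group of
homeomorphisms of `X` all of whose values are automorphisms of the shift `X`. -/
def EmbedsInAut (G : Type) [Group G] {d : ℕ} {A : Type} [TopologicalSpace A]
    (X : Set ((Fin d → ℤ) → A)) : Prop :=
  ∃ f : G →* (X ≃ₜ X), Function.Injective f ∧ ∀ g : G, IsAutomorphism (f g)

/-- Upper unitriangular: `1` on the diagonal and `0` below it. -/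
def IsUnitriangular (M : Matrix.SpecialLinearGroup (Fin 3) ℤ) : Prop :=
  (∀ i, M.1 i i = 1) ∧ ∀ i j, j < i → M.1 i j = 0

lemma IsUnitriangular.mul {M N : Matrix.SpecialLinearGroup (Fin 3) ℤ} (hM : IsUnitriangular M)
    (hN : IsUnitriangular N) : IsUnitriangular (M * N) := by
  obtain ⟨hM, hM'⟩ := hM
  obtain ⟨hN, hN'⟩ := hN
  have m10 := hM' 1 0 (by decide)
  have m20 := hM' 2 0 (by decide)
  have m21 := hM' 2 1 (by decide)
  have n10 := hN' 1 0 (by decide)
  have n20 := hN' 2 0 (by decide)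
  have n21 := hN' 2 1 (by decide)
  have m00 := hM 0
  have m11 := hM 1
  have m22 := hM 2
  have n00 := hN 0
  have n11 := hN 1
  have n22 := hN 2
  constructor
  · intro i
    rw [Matrix.SpecialLinearGroup.coe_mul, Matrix.mul_apply, Fin.sum_univ_three]
    fin_cases i <;> simp [*]
  · intro i j hij
    rw [Matrix.SpecialLinearGroup.coe_mul, Matrix.mul_apply, Fin.sum_univ_three]
    fin_cases i <;> fin_cases j <;> simp_all

lemma IsUnitriangular.one : IsUnitriangular 1 := by
  constructor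
  · intro i; simp
  · intro i j hij
    rw [Matrix.SpecialLinearGroup.coe_one, Matrix.one_apply_ne hij.ne']

lemma IsUnitriangular.inv {M : Matrix.SpecialLinearGroup (Fin 3) ℤ} (hM : IsUnitriangular M) :
    IsUnitriangular M⁻¹ := by
  obtain ⟨hM, hM'⟩ := hM
  have m10 := hM' 1 0 (by decide)
  have m20 := hM' 2 0 (by decide)
  have m21 := hM' 2 1 (by decide)
  have m00 := hM 0
  have m11 := hM 1
  have m22 := hM 2
  constructor
  · intro i
    rw [Matrix.SpecialLinearGroup.coe_inv, Matrix.adjugate_fin_three]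
    fin_cases i <;> simp [*]
  · intro i j hij
    rw [Matrix.SpecialLinearGroup.coe_inv, Matrix.adjugate_fin_three]
    fin_cases i <;> fin_cases j <;> simp_all

/-- The discrete Heisenberg group: the group of `3 × 3` upper unitriangular matrices with integer
entries, as a subgroup of `SL(3, ℤ)`. -/
def Heisenberg : Subgroup (Matrix.SpecialLinearGroup (Fin 3) ℤ) where
  carrier := {M | IsUnitriangular M}
  mul_mem' := IsUnitriangular.mul
  one_mem' := IsUnitriangular.one
  inv_mem' := IsUnitriangular.inv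

/-! ## Homomorphisms out of the Heisenberg group -/

section Group

variable {G : Type} [Group G]

lemma zpow_mul_zpow_of_comm {a b c : G} (hba : b * a = c * (a * b)) (hca : Commute c a)
    (hcb : Commute c b) (p q : ℤ) : b ^ p * a ^ q = a ^ q * b ^ p * c ^ (p * q) := by
  have h1 : b * a * b⁻¹ = c * a := by rw [hba]; group
  have h2 : b * a ^ q * b⁻¹ = c ^ q * a ^ q := by
    rw [← conj_zpow, h1, hca.mul_zpow]
  have h3 : (a ^ q)⁻¹ * b * a ^ q = c ^ q * b := by
    have : b * a ^ q = c ^ q * a ^ q * b := by rw [← h2]; group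
    rw [mul_assoc, this, (hca.zpow_zpow q q).eq]; group
  have h4 : (a ^ q)⁻¹ * b ^ p * a ^ q = c ^ (q * p) * b ^ p := by
    have := conj_zpow (a := (a ^ q)⁻¹) (b := b) (i := p)
    rw [inv_inv, h3] at this
    rw [← this, (hcb.zpow_left q).mul_zpow, zpow_mul]
  have h5 : b ^ p * a ^ q = a ^ q * (c ^ (q * p) * b ^ p) := by rw [← h4]; group
  rw [h5, (hcb.zpow_zpow (q * p) p).eq, mul_comm p q, mul_assoc]

lemma heis_entries (M : Heisenberg) : M.1.1 1 0 = 0 ∧ M.1.1 2 0 = 0 ∧ M.1.1 2 1 = 0 ∧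
    M.1.1 0 0 = 1 ∧ M.1.1 1 1 = 1 ∧ M.1.1 2 2 = 1 :=
  ⟨M.2.2 1 0 (by decide), M.2.2 2 0 (by decide), M.2.2 2 1 (by decide), M.2.1 0, M.2.1 1, M.2.1 2⟩

lemma heis_mul (M N : Heisenberg) :
    (M * N).1.1 0 1 = M.1.1 0 1 + N.1.1 0 1 ∧ (M * N).1.1 1 2 = M.1.1 1 2 + N.1.1 1 2 ∧
    (M * N).1.1 0 2 = M.1.1 0 2 + N.1.1 0 2 + M.1.1 0 1 * N.1.1 1 2 := by
  obtain ⟨m10, m20, m21, m00, m11, m22⟩ := heis_entries M
  obtain ⟨n10, n20, n21, n00, n11, n22⟩ := heis_entries N
  have h : (M * N).1.1 = M.1.1 * N.1.1 := rfl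
  rw [h]
  refine ⟨?_, ?_, ?_⟩
  · rw [Matrix.mul_apply, Fin.sum_univ_three, m00, n11, n21]; ring
  · rw [Matrix.mul_apply, Fin.sum_univ_three, m10, m11, n22]; ring
  · rw [Matrix.mul_apply, Fin.sum_univ_three, m00, n22]; ring

lemma heis_ext {M : Heisenberg} (h1 : M.1.1 0 1 = 0) (h2 : M.1.1 1 2 = 0) (h3 : M.1.1 0 2 = 0) :
    M = 1 := by
  obtain ⟨m10, m20, m21, m00, m11, m22⟩ := heis_entries M
  apply Subtype.ext
  apply Subtype.ext
  change M.1.1 = 1
  ext i j
  fin_cases i <;> fin_cases j <;> simp [*]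

/-- The homomorphism out of the Heisenberg group determined by `a, b`. -/
def heisHom (a b c : G) (hba : b * a = c * (a * b)) (hca : Commute c a)
    (hcb : Commute c b) : Heisenberg →* G :=
  MonoidHom.mk' (fun M => a ^ (M.1.1 1 2) * b ^ (M.1.1 0 1) * c ^ (M.1.1 0 2)) (by
    intro M N
    obtain ⟨h1, h2, h3⟩ := heis_mul M N
    rw [h1, h2, h3]
    generalize M.1.1 0 1 = p
    generalize M.1.1 1 2 = q
    generalize M.1.1 0 2 = r
    generalize N.1.1 0 1 = p'
    generalize N.1.1 1 2 = q'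
    generalize N.1.1 0 2 = r'
    have key := zpow_mul_zpow_of_comm hba hca hcb p q'
    have e1 : c ^ r * (a ^ q' * b ^ p' * c ^ r') = a ^ q' * b ^ p' * (c ^ r * c ^ r') := by
      have : Commute (c ^ r) (a ^ q' * b ^ p') :=
        ((hca.zpow_zpow r q').mul_right (hcb.zpow_zpow r p'))
      rw [← mul_assoc, this.eq, mul_assoc]
    have e2 : c ^ (p * q') * b ^ p' = b ^ p' * c ^ (p * q') := (hcb.zpow_zpow _ _).eq
    calc a ^ (q + q') * b ^ (p + p') * c ^ (r + r' + p * q')
        = a ^ q * a ^ q' * (b ^ p * b ^ p') * (c ^ (p * q') * (c ^ r * c ^ r')) := by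
          rw [zpow_add, zpow_add, ← zpow_add c r r', ← zpow_add c (p * q')]
          congr 2; ring
      _ = a ^ q * (a ^ q' * b ^ p * c ^ (p * q')) * (b ^ p' * (c ^ r * c ^ r')) := by
          have : a ^ q * (a ^ q' * b ^ p * c ^ (p * q')) * (b ^ p' * (c ^ r * c ^ r'))
              = a ^ q * a ^ q' * b ^ p * (c ^ (p * q') * b ^ p') * (c ^ r * c ^ r') := by group
          rw [this, e2]; group
      _ = a ^ q * (b ^ p * a ^ q') * (b ^ p' * (c ^ r * c ^ r')) := by rw [key]
      _ = a ^ q * b ^ p * (a ^ q' * b ^ p' * (c ^ r * c ^ r')) := by group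
      _ = a ^ q * b ^ p * (c ^ r * (a ^ q' * b ^ p' * c ^ r')) := by rw [e1]
      _ = a ^ q * b ^ p * c ^ r * (a ^ q' * b ^ p' * c ^ r') := by group)

/-- If `c = b a b⁻¹ a⁻¹` commutes with `a` and `b` and has infinite order, then the Heisenberg
group embeds. -/
lemma exists_injective_hom (a b : G) (hca : Commute (b * a * b⁻¹ * a⁻¹) a)
    (hcb : Commute (b * a * b⁻¹ * a⁻¹) b) (hord : ∀ m : ℕ, 0 < m → (b * a * b⁻¹ * a⁻¹) ^ m ≠ 1) :
    ∃ f : Heisenberg →* G, Function.Injective f := by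
  have hba : b * a = (b * a * b⁻¹ * a⁻¹) * (a * b) := by group
  generalize b * a * b⁻¹ * a⁻¹ = c at hca hcb hord hba
  have hord' : ∀ n : ℤ, c ^ n = 1 → n = 0 := by
    intro n hn
    by_contra hne
    have h1 : 0 < n.natAbs := Int.natAbs_pos.mpr hne
    apply hord _ h1
    rcases Int.natAbs_eq n with h | h
    · rw [h, zpow_natCast] at hn; exact hn
    · rw [h, zpow_neg, zpow_natCast, inv_eq_one] at hn; exact hn
  refine ⟨heisHom a b c hba hca hcb, ?_⟩
  rw [injective_iff_map_eq_one]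
  intro M hM
  change a ^ (M.1.1 1 2) * b ^ (M.1.1 0 1) * c ^ (M.1.1 0 2) = 1 at hM
  generalize hq : M.1.1 1 2 = q at hM
  generalize hp : M.1.1 0 1 = p at hM
  generalize hr : M.1.1 0 2 = r at hM
  -- `b ^ p` commutes with `a`
  have hp0 : p = 0 := by
    apply hord'
    have h1 : b ^ p = (a ^ q)⁻¹ * (c ^ r)⁻¹ := by
      have : b ^ p = (a ^ q)⁻¹ * (a ^ q * b ^ p * c ^ r) * (c ^ r)⁻¹ := by group
      rw [this, hM]; group
    have h2 : Commute (b ^ p) a := by
      rw [h1]
      exact ((Commute.refl a).zpow_left q).inv_left.mul_left (hca.zpow_left r).inv_left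
    have h3 := zpow_mul_zpow_of_comm hba hca hcb p 1
    rw [zpow_one, mul_one, h2.eq] at h3
    simpa using h3
  have hq0 : q = 0 := by
    apply hord'
    have h1 : a ^ q = (c ^ r)⁻¹ * (b ^ p)⁻¹ := by
      have : a ^ q = (a ^ q * b ^ p * c ^ r) * (c ^ r)⁻¹ * (b ^ p)⁻¹ := by group
      rw [this, hM]; group
    have h2 : Commute b (a ^ q) := by
      rw [h1]
      exact ((hcb.zpow_left r).inv_left.symm).mul_right
        (((Commute.refl b).zpow_right p).inv_right)
    have h3 := zpow_mul_zpow_of_comm hba hca hcb 1 q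
    rw [zpow_one, one_mul, h2.eq] at h3
    simpa using h3
  subst hp0 hq0
  have hr0 : r = 0 := by
    apply hord'
    simpa using hM
  exact heis_ext hp hq (hr.trans hr0)

end Group

/-! ## Permutations coded by local pointers -/

section Construction

variable {d : ℕ} {K : ℤ}

/-- Displacement vectors: integer vectors with all coordinates in `[-K, K]`. -/
abbrev Disp (d : ℕ) (K : ℤ) : Type := ↥(Finset.Icc (fun _ : Fin d => -K) (fun _ => K))

/-- The alphabet: four displacement vectors (for `a`, `a⁻¹`, `b`, `b⁻¹`) and a bit. -/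
def Alph (d : ℕ) (K : ℤ) : Type := (Fin 4 → Disp d K) × Bool

instance : TopologicalSpace (Alph d K) := ⊥

instance : DiscreteTopology (Alph d K) := ⟨rfl⟩

instance : Finite (Alph d K) := inferInstanceAs (Finite ((Fin 4 → Disp d K) × Bool))

/-- Follow the pointer `s` from `v`. -/
def step (s : Fin 4) (x : (Fin d → ℤ) → Alph d K) (v : Fin d → ℤ) : Fin d → ℤ :=
  v + ((x v).1 s : Fin d → ℤ)

/-- The composition `b a b⁻¹ a⁻¹` of pointers. -/
def cst (x : (Fin d → ℤ) → Alph d K) (v : Fin d → ℤ) : Fin d → ℤ :=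
  step 2 x (step 0 x (step 3 x (step 1 x v)))

/-- The local rules. -/
def Rule (x : (Fin d → ℤ) → Alph d K) (v : Fin d → ℤ) : Prop :=
  step 1 x (step 0 x v) = v ∧ step 0 x (step 1 x v) = v ∧
  step 3 x (step 2 x v) = v ∧ step 2 x (step 3 x v) = v ∧
  cst x (step 0 x v) = step 0 x (cst x v) ∧ cst x (step 2 x v) = step 2 x (cst x v)

lemma cont_eval {Y B ι : Type} [TopologicalSpace Y] [TopologicalSpace B] [TopologicalSpace ι]
    [DiscreteTopology ι] {g : Y → ι → B} {h : Y → ι} (hg : Continuous g) (hh : Continuous h) :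
    Continuous fun y => g y (h y) := by
  rw [continuous_iff_continuousAt]
  intro y
  have h1 : ∀ᶠ y' in 𝓝 y, h y' = h y :=
    (hh.tendsto y).eventually ((isOpen_discrete {h y}).mem_nhds rfl)
  exact (((continuous_apply (h y)).comp hg).continuousAt).congr
    (h1.mono fun y' hy' => by simp [Function.comp, hy'])

lemma cont_step {Y : Type} [TopologicalSpace Y] (s : Fin 4)
    {g : Y → (Fin d → ℤ) → Alph d K} {h : Y → (Fin d → ℤ)} (hg : Continuous g)
    (hh : Continuous h) : Continuous fun y => step s (g y) (h y) := by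
  unfold step
  have h1 : Continuous fun y => g y (h y) := cont_eval hg hh
  have h2 : Continuous fun t : Alph d K => (t.1 s : Fin d → ℤ) := continuous_of_discreteTopology
  exact hh.add (h2.comp h1)

lemma cont_cst {Y : Type} [TopologicalSpace Y]
    {g : Y → (Fin d → ℤ) → Alph d K} {h : Y → (Fin d → ℤ)} (hg : Continuous g)
    (hh : Continuous h) : Continuous fun y => cst (g y) (h y) :=
  cont_step 2 hg (cont_step 0 hg (cont_step 3 hg (cont_step 1 hg hh)))

/-- The set of configurations obeying the local rules. -/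
def XX (d : ℕ) (K : ℤ) : Set ((Fin d → ℤ) → Alph d K) := {x | ∀ v, Rule x v}

lemma isClosed_XX : IsClosed (XX d K) := by
  have : XX d K = ⋂ v, {x | Rule x v} := by ext x; simp [XX]
  rw [this]
  refine isClosed_iInter fun v => ?_
  have c (s : Fin 4) : Continuous fun x : (Fin d → ℤ) → Alph d K => step s x v :=
    cont_step s continuous_id continuous_const
  have hid : Continuous fun x : (Fin d → ℤ) → Alph d K => x := continuous_id
  have hv : Continuous fun _ : (Fin d → ℤ) → Alph d K => v := continuous_const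
  refine (isClosed_eq (cont_step 1 hid (c 0)) hv).inter ?_
  refine (isClosed_eq (cont_step 0 hid (c 1)) hv).inter ?_
  refine (isClosed_eq (cont_step 3 hid (c 2)) hv).inter ?_
  refine (isClosed_eq (cont_step 2 hid (c 3)) hv).inter ?_
  refine (isClosed_eq (cont_cst hid (c 0)) (cont_step 0 hid (cont_cst hid hv))).inter ?_
  exact isClosed_eq (cont_cst hid (c 2)) (cont_step 2 hid (cont_cst hid hv))

lemma step_shift (s : Fin 4) (x : (Fin d → ℤ) → Alph d K) (u v : Fin d → ℤ) :
    u + step s (shift u x) v = step s x (u + v) := by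
  unfold step shift
  rw [add_assoc]

lemma cst_shift (x : (Fin d → ℤ) → Alph d K) (u v : Fin d → ℤ) :
    u + cst (shift u x) v = cst x (u + v) := by
  unfold cst
  rw [step_shift, step_shift, step_shift, step_shift]

lemma shift_mem {x : (Fin d → ℤ) → Alph d K} (hx : x ∈ XX d K) (u : Fin d → ℤ) :
    shift u x ∈ XX d K := by
  intro v
  obtain ⟨h1, h2, h3, h4, h5, h6⟩ := hx (u + v)
  refine ⟨?_, ?_, ?_, ?_, ?_, ?_⟩ <;> apply add_left_cancel (a := u)
  · rw [step_shift, step_shift, h1]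
  · rw [step_shift, step_shift, h2]
  · rw [step_shift, step_shift, h3]
  · rw [step_shift, step_shift, h4]
  · rw [cst_shift, step_shift, step_shift, cst_shift, h5]
  · rw [cst_shift, step_shift, step_shift, cst_shift, h6]

lemma shift_shift {A : Type} (x : (Fin d → ℤ) → A) (u v : Fin d → ℤ) :
    shift u (shift v x) = shift (v + u) x := by
  funext w
  simp [shift, add_assoc]

lemma shift_zero {A : Type} (x : (Fin d → ℤ) → A) : shift 0 x = x := by
  funext w
  simp [shift]

lemma image_shift_XX (u : Fin d → ℤ) : shift u '' XX d K = XX d K := by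
  apply Set.Subset.antisymm
  · rintro _ ⟨x, hx, rfl⟩
    exact shift_mem hx u
  · intro x hx
    refine ⟨shift (-u) x, shift_mem hx _, ?_⟩
    rw [shift_shift, neg_add_cancel, shift_zero]

lemma step_congr {x y : (Fin d → ℤ) → Alph d K} (h : ∀ v, (x v).1 = (y v).1) (s : Fin 4) :
    step s x = step s y := by
  funext v
  simp [step, h]

lemma mem_of_fst_eq {x y : (Fin d → ℤ) → Alph d K} (h : ∀ v, (x v).1 = (y v).1)
    (hx : x ∈ XX d K) : y ∈ XX d K := by
  intro v
  have hc : cst x = cst y := by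
    funext v
    simp [cst, step_congr h]
  have := hx v
  unfold Rule at this ⊢
  rw [hc, step_congr h, step_congr h, step_congr h, step_congr h] at this
  exact this

/-- The group of cocycles: continuous equivariant families of permutations depending only on
the pointers. -/
def W (d : ℕ) (K : ℤ) : Subgroup (XX d K → Equiv.Perm (Fin d → ℤ)) where
  carrier := {π | (∀ v, Continuous fun x => π x v) ∧ (∀ v, Continuous fun x => (π x)⁻¹ v) ∧
    (∀ (u : Fin d → ℤ) (x y : XX d K), (y : (Fin d → ℤ) → Alph d K) = shift u x →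
      ∀ v, u + π y v = π x (u + v)) ∧
    (∀ x y : XX d K, (∀ v, (x.1 v).1 = (y.1 v).1) → π x = π y)}
  mul_mem' := by
    rintro π ρ ⟨h1, h2, h3, h4⟩ ⟨k1, k2, k3, k4⟩
    refine ⟨?_, ?_, ?_, ?_⟩
    · intro v
      exact cont_eval (g := fun x => (π x : (Fin d → ℤ) → (Fin d → ℤ)))
        (continuous_pi h1) (k1 v)
    · intro v
      have : (fun x => ((π * ρ) x)⁻¹ v) = fun x => (ρ x)⁻¹ ((π x)⁻¹ v) := by
        funext x
        simp [mul_inv_rev]
      rw [this]
      exact cont_eval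
        (g := fun x => (((ρ x)⁻¹ : Equiv.Perm (Fin d → ℤ)) : (Fin d → ℤ) → (Fin d → ℤ)))
        (continuous_pi k2) (h2 v)
    · intro u x y hxy v
      change u + π y (ρ y v) = π x (ρ x (u + v))
      rw [h3 u x y hxy, k3 u x y hxy]
    · intro x y hxy
      change π x * ρ x = π y * ρ y
      rw [h4 x y hxy, k4 x y hxy]
  one_mem' := by
    refine ⟨fun v => continuous_const, fun v => ?_, fun _ _ _ _ _ => rfl, fun _ _ _ => rfl⟩
    simpa using continuous_const
  inv_mem' := by
    rintro π ⟨h1, h2, h3, h4⟩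
    refine ⟨h2, fun v => ?_, ?_, ?_⟩
    · simpa using h1 v
    · intro u x y hxy v
      change u + (π y)⁻¹ v = (π x)⁻¹ (u + v)
      rw [Equiv.Perm.eq_inv_iff_eq, ← h3 u x y hxy]
      simp
    · intro x y hxy
      change (π x)⁻¹ = (π y)⁻¹
      rw [h4 x y hxy]

/-- The letter with the pointers of `p` and the bit of `q`. -/
def glue (p q : Alph d K) : Alph d K := (p.1, q.2)

/-- The action of a cocycle: permute the bits, keep the pointers. -/
def act (π : XX d K → Equiv.Perm (Fin d → ℤ)) (x : XX d K) : XX d K :=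
  ⟨fun v => glue (x.1 v) (x.1 ((π x)⁻¹ v)), mem_of_fst_eq (fun _ => rfl) x.2⟩

lemma act_one (x : XX d K) : act 1 x = x := rfl

lemma act_mul {π ρ : XX d K → Equiv.Perm (Fin d → ℤ)} (hπ : π ∈ W d K) (x : XX d K) :
    act (π * ρ) x = act π (act ρ x) := by
  have h : π (act ρ x) = π x := hπ.2.2.2 _ _ (fun _ => rfl)
  apply Subtype.ext
  funext v
  change glue (x.1 v) (x.1 (((π * ρ) x)⁻¹ v))
    = glue (x.1 v) (x.1 ((ρ x)⁻¹ ((π (act ρ x))⁻¹ v)))
  rw [h, Pi.mul_apply, mul_inv_rev]
  rfl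

lemma continuous_act {π : XX d K → Equiv.Perm (Fin d → ℤ)} (hπ : π ∈ W d K) :
    Continuous (act π) := by
  refine Continuous.subtype_mk (continuous_pi fun v => ?_) _
  have h1 : Continuous fun x : XX d K => x.1 v :=
    (continuous_apply v).comp continuous_subtype_val
  have h2 : Continuous fun x : XX d K => x.1 ((π x)⁻¹ v) :=
    cont_eval (g := fun x : XX d K => x.1) continuous_subtype_val (hπ.2.1 v)
  have h3 : Continuous fun p : Alph d K × Alph d K => glue p.1 p.2 :=
    continuous_of_discreteTopology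
  exact h3.comp (h1.prodMk h2)

/-- The homeomorphism attached to a cocycle. -/
def toHomeo (π : W d K) : XX d K ≃ₜ XX d K where
  toFun := act π.1
  invFun := act (π⁻¹).1
  left_inv x := by
    rw [← act_mul (π⁻¹).2, ← Subgroup.coe_mul, inv_mul_cancel, Subgroup.coe_one, act_one]
  right_inv x := by
    rw [← act_mul π.2, ← Subgroup.coe_mul, mul_inv_cancel, Subgroup.coe_one, act_one]
  continuous_toFun := continuous_act π.2
  continuous_invFun := continuous_act (π⁻¹).2

lemma toHomeo_mul (π ρ : W d K) : toHomeo (π * ρ) = toHomeo π * toHomeo ρ := by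
  ext x : 1
  exact act_mul π.2 x

lemma toHomeo_translate (π : W d K) (u : Fin d → ℤ) (x y : XX d K)
    (h : (y : (Fin d → ℤ) → Alph d K) = shift u x) :
    (toHomeo π y : (Fin d → ℤ) → Alph d K) = shift u (toHomeo π x : XX d K) := by
  have h3 := (π⁻¹).2.2.2.1 u x y h
  funext v
  change glue (y.1 v) (y.1 ((π.1 y)⁻¹ v)) = glue (x.1 (u + v)) (x.1 ((π.1 x)⁻¹ (u + v)))
  have h4 : u + (π.1 y)⁻¹ v = (π.1 x)⁻¹ (u + v) := h3 v
  rw [← h4, h]
  rfl

/-- The pointer field `a`. -/
def permA (x : XX d K) : Equiv.Perm (Fin d → ℤ) where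
  toFun := step 0 x.1
  invFun := step 1 x.1
  left_inv v := (x.2 v).1
  right_inv v := (x.2 v).2.1

/-- The pointer field `b`. -/
def permB (x : XX d K) : Equiv.Perm (Fin d → ℤ) where
  toFun := step 2 x.1
  invFun := step 3 x.1
  left_inv v := (x.2 v).2.2.1
  right_inv v := (x.2 v).2.2.2.1

lemma cont_step_X (s : Fin 4) (v : Fin d → ℤ) : Continuous fun x : XX d K => step s x.1 v :=
  cont_step s continuous_subtype_val continuous_const

lemma permA_mem : permA ∈ W d K := by
  refine ⟨cont_step_X 0, cont_step_X 1, ?_, ?_⟩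
  · intro u x y hxy v
    change u + step 0 y.1 v = step 0 x.1 (u + v)
    rw [hxy, step_shift]
  · intro x y hxy
    ext1 v
    exact congrFun (step_congr hxy 0) v

lemma permB_mem : permB ∈ W d K := by
  refine ⟨cont_step_X 2, cont_step_X 3, ?_, ?_⟩
  · intro u x y hxy v
    change u + step 2 y.1 v = step 2 x.1 (u + v)
    rw [hxy, step_shift]
  · intro x y hxy
    ext1 v
    exact congrFun (step_congr hxy 2) v

/-- The element `a` of the group of cocycles. -/
def wA : W d K := ⟨permA, permA_mem⟩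

/-- The element `b` of the group of cocycles. -/
def wB : W d K := ⟨permB, permB_mem⟩

lemma wC_apply (x : XX d K) (v : Fin d → ℤ) :
    (wB * wA * wB⁻¹ * wA⁻¹ : W d K).1 x v = cst x.1 v := rfl

lemma wC_comm_wA : Commute (wB * wA * wB⁻¹ * wA⁻¹ : W d K) wA := by
  apply Subtype.ext
  funext x
  ext1 v
  exact (x.2 v).2.2.2.2.1

lemma wC_comm_wB : Commute (wB * wA * wB⁻¹ * wA⁻¹ : W d K) wB := by
  apply Subtype.ext
  funext x
  ext1 v
  exact (x.2 v).2.2.2.2.2

/-- The displacement of a permutation with bounded displacement. -/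
def disp (α : Equiv.Perm (Fin d → ℤ)) (h : ∀ v j, |α v j - v j| ≤ K) (v : Fin d → ℤ) :
    Disp d K :=
  ⟨α v - v, Finset.mem_Icc.mpr
    ⟨fun j => (abs_le.mp (h v j)).1, fun j => (abs_le.mp (h v j)).2⟩⟩

lemma disp_inv {α : Equiv.Perm (Fin d → ℤ)} (h : ∀ v j, |α v j - v j| ≤ K) :
    ∀ v j, |α⁻¹ v j - v j| ≤ K := by
  intro v j
  have h1 := h (α⁻¹ v) j
  rw [show α (α⁻¹ v) = v by simp, abs_sub_comm] at h1
  exact h1

open Classical in
/-- The configuration coding two permutations and a marked point. -/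
noncomputable def config (α β : Equiv.Perm (Fin d → ℤ)) (hα : ∀ v j, |α v j - v j| ≤ K)
    (hβ : ∀ v j, |β v j - v j| ≤ K) (v₀ : Fin d → ℤ) : (Fin d → ℤ) → Alph d K :=
  fun v => (![disp α hα v, disp α⁻¹ (disp_inv hα) v, disp β hβ v, disp β⁻¹ (disp_inv hβ) v],
    decide (v = v₀))

variable {α β : Equiv.Perm (Fin d → ℤ)} (hα : ∀ v j, |α v j - v j| ≤ K)
    (hβ : ∀ v j, |β v j - v j| ≤ K) (v₀ : Fin d → ℤ)

lemma step_config0 (v : Fin d → ℤ) : step 0 (config α β hα hβ v₀) v = α v := by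
  change v + (α v - v) = α v
  abel

lemma step_config1 (v : Fin d → ℤ) : step 1 (config α β hα hβ v₀) v = α⁻¹ v := by
  change v + (α⁻¹ v - v) = α⁻¹ v
  abel

lemma step_config2 (v : Fin d → ℤ) : step 2 (config α β hα hβ v₀) v = β v := by
  change v + (β v - v) = β v
  abel

lemma step_config3 (v : Fin d → ℤ) : step 3 (config α β hα hβ v₀) v = β⁻¹ v := by
  change v + (β⁻¹ v - v) = β⁻¹ v
  abel

lemma cst_config (v : Fin d → ℤ) :
    cst (config α β hα hβ v₀) v = (β * α * β⁻¹ * α⁻¹) v := by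
  unfold cst
  rw [step_config0, step_config1, step_config2, step_config3]
  rfl

lemma config_mem (hca : Commute (β * α * β⁻¹ * α⁻¹) α) (hcb : Commute (β * α * β⁻¹ * α⁻¹) β) :
    config α β hα hβ v₀ ∈ XX d K := by
  intro v
  refine ⟨?_, ?_, ?_, ?_, ?_, ?_⟩
  · rw [step_config0, step_config1]; simp
  · rw [step_config0, step_config1]; simp
  · rw [step_config2, step_config3]; simp
  · rw [step_config2, step_config3]; simp
  · rw [step_config0, step_config0, cst_config, cst_config]
    exact congrArg (fun e : Equiv.Perm (Fin d → ℤ) => e v) hca.eq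
  · rw [step_config2, step_config2, cst_config, cst_config]
    exact congrArg (fun e : Equiv.Perm (Fin d → ℤ) => e v) hcb.eq

end Construction

lemma isSubshift_XX : IsSubshift (XX 35 (4 ^ 10)) where
  nonempty := by
    obtain ⟨α, β, hα, hβ, hca, hcb, -⟩ :=
      Pool.Agent.H.MP_2c2cb6_an.exists_perms 1 one_pos
    exact ⟨_, config_mem hα hβ 0 hca hcb⟩
  isClosed := isClosed_XX
  image_shift := image_shift_XX

/-- The automorphism group of the shift `XX 35 (4 ^ 10)`. -/
def AutXX : Subgroup (XX 35 (4 ^ 10) ≃ₜ XX 35 (4 ^ 10)) where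
  carrier := {φ | IsAutomorphism φ}
  mul_mem' := fun hφ hψ u x y h => hφ u _ _ (hψ u x y h)
  one_mem' := fun _ _ _ h => h
  inv_mem' := by
    intro φ hφ u x y h
    have h0 : ∀ z, φ (φ⁻¹ z) = z := fun z => φ.apply_symm_apply z
    have h1 : φ ⟨shift u (φ⁻¹ x).1, shift_mem (φ⁻¹ x).2 u⟩ = y := by
      apply Subtype.ext
      rw [hφ u (φ⁻¹ x) _ rfl, h0, h]
    have h2 : φ⁻¹ y = ⟨shift u (φ⁻¹ x).1, shift_mem (φ⁻¹ x).2 u⟩ := by
      apply φ.injective
      rw [h0, h1]
    rw [h2]

/-- The homomorphism from the group of cocycles to the automorphism group. -/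
def toAut : W 35 (4 ^ 10) →* AutXX :=
  MonoidHom.mk' (fun π => ⟨toHomeo π, fun u x y h => toHomeo_translate π u x y h⟩)
    (fun π ρ => Subtype.ext (toHomeo_mul π ρ))

lemma exists_embedding : ∃ f : Heisenberg →* AutXX, Function.Injective f := by
  have hmul : toAut wB * toAut wA * (toAut wB)⁻¹ * (toAut wA)⁻¹
      = toAut (wB * wA * wB⁻¹ * wA⁻¹) := by simp
  apply exists_injective_hom (toAut wA) (toAut wB)
  · rw [hmul]; exact wC_comm_wA.map toAut
  · rw [hmul]; exact wC_comm_wB.map toAut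
  · intro m hm h
    rw [hmul, ← map_pow] at h
    obtain ⟨α, β, hα, hβ, hca, hcb, hne⟩ := Pool.Agent.H.MP_2c2cb6_an.exists_perms m hm
    obtain ⟨v₀, hv₀⟩ : ∃ v, ((β * α * β⁻¹ * α⁻¹) ^ m) v ≠ v := by
      by_contra hcon
      push Not at hcon
      exact hne (Equiv.ext hcon)
    let x : XX 35 (4 ^ 10) := ⟨config α β hα hβ v₀, config_mem hα hβ v₀ hca hcb⟩
    have hx : (wB * wA * wB⁻¹ * wA⁻¹ : W 35 (4 ^ 10)).1 x = β * α * β⁻¹ * α⁻¹ := by
      ext1 v
      exact cst_config hα hβ v₀ v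
    have hxm : ((wB * wA * wB⁻¹ * wA⁻¹ : W 35 (4 ^ 10)) ^ m).1 x = (β * α * β⁻¹ * α⁻¹) ^ m := by
      rw [← hx]; rfl
    have h1 : act ((wB * wA * wB⁻¹ * wA⁻¹ : W 35 (4 ^ 10)) ^ m).1 x = x :=
      congrArg (fun φ : AutXX => φ.1 x) h
    have h2 := congrArg (fun y : XX 35 (4 ^ 10) => (y.1 (((β * α * β⁻¹ * α⁻¹) ^ m) v₀)).2) h1
    have h3 : (x.1 ((((wB * wA * wB⁻¹ * wA⁻¹ : W 35 (4 ^ 10)) ^ m).1 x)⁻¹
        (((β * α * β⁻¹ * α⁻¹) ^ m) v₀))).2 = (x.1 (((β * α * β⁻¹ * α⁻¹) ^ m) v₀)).2 := h2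
    rw [hxm] at h3
    have h4 : ((β * α * β⁻¹ * α⁻¹) ^ m)⁻¹ (((β * α * β⁻¹ * α⁻¹) ^ m) v₀) = v₀ := by simp
    rw [h4] at h3
    have h5 : ∀ w, (x.1 w).2 = decide (w = v₀) := fun w => rfl
    rw [h5, h5] at h3
    simp [hv₀] at h3

/-- **Positive answer to Q1.** There are `d ≥ 2`, a finite alphabet `A` (with the discrete
topology) and a shift `X` of dimension `d` over `A` such that the discrete Heisenberg group
embeds into the automorphism group of `X`. -/
theorem result : ∃ (d : ℕ) (A : Type) (_ : Finite A) (_ : TopologicalSpace A)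
    (_ : DiscreteTopology A) (X : Set ((Fin d → ℤ) → A)),
    2 ≤ d ∧ IsSubshift X ∧ EmbedsInAut Heisenberg X := by
  obtain ⟨f, hf⟩ := exists_embedding
  refine ⟨35, Alph 35 (4 ^ 10), inferInstance, inferInstance, inferInstance, XX 35 (4 ^ 10),
    by norm_num, isSubshift_XX, AutXX.subtype.comp f, ?_, fun g => (f g).2⟩
  exact (Subgroup.subtype_injective AutXX).comp hf

end Pool.Agent.Results.MP_2c2cb6_an.HeisenbergEmbeds
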